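import Mathlib

/-!
# Dense sets of `F_2^n` and functions of low degree supported on `B + B`
-/

set_option autoImplicit false

namespace Pool.Agent.Helper7.Z4

open Finset

/-- `F_2^n` -/
abbrev Q (n : ℕ) := Fin n → ZMod 2

variable {n : ℕ}

/-- monomial -/
def mo (S : Finset (Fin n)) (x : Q n) : ZMod 2 := ∏ i ∈ S, x i

/-- the sets with at most `t` elements -/
def sm (n t : ℕ) : Finset (Finset (Fin n)) := univ.filter fun S => S.card ≤ t

lemma mem_sm {t : ℕ} {S : Finset (Fin n)} : S ∈ sm n t ↔ S.card ≤ t := by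
  simp [sm]

/-- expansion of a monomial of a sum -/
lemma mo_add (S : Finset (Fin n)) (x u : Q n) :
    mo S (x + u) = ∑ T ∈ S.powerset, mo T x * mo (S \ T) u := by
  unfold mo
  simp only [Pi.add_apply]
  rw [Finset.prod_add]

/-- coefficient of a function -/
def cf (h : Q n → ZMod 2) (S : Finset (Fin n)) : ZMod 2 :=
  ∑ y : Q n, h y * ∏ i ∈ Sᶜ, (1 + y i)

lemma zm2 (x : ZMod 2) : x = 0 ∨ x = 1 := by
  revert x; decide

lemma zm2_add (x : ZMod 2) : x + x = 0 := by
  revert x; decide

/-- the delta function -/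
lemma delta (x y : Q n) : ∏ i, (1 + x i + y i) = if x = y then 1 else 0 := by
  split_ifs with h
  · subst h
    refine Finset.prod_eq_one fun i _ => ?_
    rw [add_assoc, zm2_add, add_zero]
  · obtain ⟨i, hi⟩ := Function.ne_iff.1 h
    refine Finset.prod_eq_zero (mem_univ i) ?_
    revert hi
    generalize x i = a
    generalize y i = b
    revert a b
    decide

/-- expansion of a function in monomials -/
lemma expand (h : Q n → ZMod 2) (x : Q n) : h x = ∑ S : Finset (Fin n), cf h S * mo S x := by
  have e1 : ∀ y : Q n, ∏ i, (1 + x i + y i) =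
      ∑ S : Finset (Fin n), mo S x * ∏ i ∈ Sᶜ, (1 + y i) := by
    intro y
    have : ∀ i, 1 + x i + y i = x i + (1 + y i) := fun i => by ring
    simp only [this]
    rw [Finset.prod_add, Finset.powerset_univ]
    rfl
  have e2 : h x = ∑ y : Q n, h y * ∏ i, (1 + x i + y i) := by
    simp only [delta]
    simp
  rw [e2]
  simp only [e1]
  unfold cf
  simp only [Finset.mul_sum, Finset.sum_mul]
  rw [Finset.sum_comm]
  refine Finset.sum_congr rfl fun S _ => Finset.sum_congr rfl fun y _ => ?_
  ring

/-- orthogonal to the monomials of degree at most `t` -/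
def Ort (t : ℕ) (h : Q n → ZMod 2) : Prop := ∀ T : Finset (Fin n), T.card ≤ t → ∑ y, h y * mo T y = 0

/-- functions orthogonal to the monomials of degree at most `t` have small degree -/
lemma cf_zero {t : ℕ} {h : Q n → ZMod 2} (hh : Ort t h) {S : Finset (Fin n)}
    (hS : n ≤ S.card + t) : cf h S = 0 := by
  unfold cf
  have e : ∀ y : Q n, ∏ i ∈ Sᶜ, (1 + y i) = ∑ T ∈ (Sᶜ).powerset, mo T y := by
    intro y
    have : ∀ i, 1 + y i = y i + 1 := fun i => by ring
    simp only [this]
    rw [Finset.prod_add]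
    refine Finset.sum_congr rfl fun T _ => ?_
    simp [mo]
  simp only [e, Finset.mul_sum]
  rw [Finset.sum_comm]
  refine Finset.sum_eq_zero fun T hT => hh T ?_
  have h1 := Finset.card_le_card (Finset.mem_powerset.1 hT)
  have h2 : (Sᶜ).card = n - S.card := by
    rw [Finset.card_compl, Fintype.card_fin]
  omega

/-- the correlation of two functions orthogonal to the monomials of degree at most `t` has degree
at most `n - 2 t - 2` -/
lemma conv_deg {t : ℕ} {g h : Q n → ZMod 2} (hg : Ort t g) (hh : Ort t h) :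
    ∃ c : Finset (Fin n) → ZMod 2, ∀ u : Q n,
      ∑ x, g x * h (x + u) = ∑ R ∈ sm n (n - 2 * t - 2), c R * mo R u := by
  classical
  refine ⟨fun R => ∑ S : Finset (Fin n), ∑ T ∈ S.powerset.filter (fun T => S \ T = R),
    cf h S * ∑ x, g x * mo T x, fun u => ?_⟩
  have e1 : ∑ x, g x * h (x + u) = ∑ S : Finset (Fin n), ∑ T ∈ S.powerset,
      (cf h S * ∑ x, g x * mo T x) * mo (S \ T) u := by
    have : ∀ x, g x * h (x + u) = ∑ S : Finset (Fin n), ∑ T ∈ S.powerset,
        cf h S * (g x * mo T x) * mo (S \ T) u := by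
      intro x
      rw [expand h (x + u), Finset.mul_sum]
      refine Finset.sum_congr rfl fun S _ => ?_
      rw [mo_add, Finset.mul_sum, Finset.mul_sum]
      refine Finset.sum_congr rfl fun T _ => ?_
      ring
    simp only [this]
    rw [Finset.sum_comm]
    refine Finset.sum_congr rfl fun S _ => ?_
    rw [Finset.sum_comm]
    refine Finset.sum_congr rfl fun T _ => ?_
    rw [Finset.mul_sum, Finset.sum_mul]
  rw [e1]
  -- group by the difference
  have e2 : ∀ S : Finset (Fin n), ∑ T ∈ S.powerset, (cf h S * ∑ x, g x * mo T x) * mo (S \ T) u =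
      ∑ R ∈ sm n (n - 2 * t - 2), ∑ T ∈ S.powerset.filter (fun T => S \ T = R),
        (cf h S * ∑ x, g x * mo T x) * mo R u := by
    intro S
    have hz : ∀ T ∈ S.powerset, S \ T ∉ sm n (n - 2 * t - 2) →
        (cf h S * ∑ x, g x * mo T x) * mo (S \ T) u = 0 := by
      intro T hT hR
      rw [mem_sm, not_le] at hR
      have hTS := Finset.mem_powerset.1 hT
      have hc : (S \ T).card = S.card - T.card := Finset.card_sdiff_of_subset hTS
      by_cases h1 : T.card ≤ t
      · rw [hg T h1]
        ring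
      · rw [cf_zero hh (S := S) (by omega)]
        ring
    have e3 : ∀ R ∈ sm n (n - 2 * t - 2), ∑ T ∈ S.powerset.filter (fun T => S \ T = R),
        (cf h S * ∑ x, g x * mo T x) * mo R u =
        ∑ T ∈ S.powerset.filter (fun T => S \ T = R),
        (cf h S * ∑ x, g x * mo T x) * mo (S \ T) u := by
      intro R _
      refine Finset.sum_congr rfl fun T hT => ?_
      rw [(Finset.mem_filter.1 hT).2]
    rw [Finset.sum_congr rfl e3]
    rw [← Finset.sum_filter_add_sum_filter_not S.powerset
      (fun T => S \ T ∈ sm n (n - 2 * t - 2))]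
    rw [Finset.sum_eq_zero (s := S.powerset.filter fun T => ¬ S \ T ∈ sm n (n - 2 * t - 2))
      (fun T hT => hz T (Finset.mem_filter.1 hT).1 (Finset.mem_filter.1 hT).2), add_zero]
    rw [← Finset.sum_fiberwise_of_maps_to (s := S.powerset.filter
      fun T => S \ T ∈ sm n (n - 2 * t - 2)) (t := sm n (n - 2 * t - 2)) (g := fun T => S \ T)
      (fun T hT => (Finset.mem_filter.1 hT).2)]
    refine Finset.sum_congr rfl fun R hR => ?_
    rw [Finset.filter_filter]
    refine Finset.sum_congr ?_ fun _ _ => rfl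
    ext T
    simp only [Finset.mem_filter]
    constructor
    · rintro ⟨h1, h2, h3⟩
      exact ⟨h1, h3⟩
    · rintro ⟨h1, h3⟩
      exact ⟨h1, by rw [h3]; exact hR, h3⟩
  simp only [e2]
  rw [Finset.sum_comm]
  refine Finset.sum_congr rfl fun R _ => ?_
  rw [Finset.sum_mul]
  refine Finset.sum_congr rfl fun S _ => ?_
  rw [Finset.sum_mul]

end Pool.Agent.Helper7.Z4
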