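import Pool.Agent.Helper7.Z4.A

/-!
# Z4 / B: functions orthogonal to small degree on a large set, and the rank bound
-/

set_option autoImplicit false

namespace Pool.Agent.Helper7.Z4

open Finset

variable {n : ℕ}

/-- extension by zero of a function on `B` -/
def ext (B : Finset (Q n)) (g : B → ZMod 2) (y : Q n) : ZMod 2 :=
  if hy : y ∈ B then g ⟨y, hy⟩ else 0

lemma ext_not {B : Finset (Q n)} (g : B → ZMod 2) {y : Q n} (hy : y ∉ B) : ext B g y = 0 := by
  simp [ext, hy]

lemma sum_ext (B : Finset (Q n)) (g : B → ZMod 2) (F : Q n → ZMod 2) :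
    ∑ y, ext B g y * F y = ∑ y : B, g y * F y := by
  have h1 : ∑ y, ext B g y * F y = ∑ y ∈ B, ext B g y * F y := by
    refine (Finset.sum_subset (Finset.subset_univ B) fun y _ hy => ?_).symm
    rw [ext_not g hy, zero_mul]
  rw [h1, ← Finset.sum_coe_sort B]
  refine Finset.sum_congr rfl fun y _ => ?_
  simp [ext]

/-- the moments of a function on `B` -/
def mom (B : Finset (Q n)) (t : ℕ) : (B → ZMod 2) →ₗ[ZMod 2] (sm n t → ZMod 2) where
  toFun g T := ∑ y : B, g y * mo (T : Finset (Fin n)) (y : Q n)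
  map_add' g h := by
    funext T
    simp only [Pi.add_apply, add_mul, Finset.sum_add_distrib]
  map_smul' c g := by
    funext T
    simp only [Pi.smul_apply, smul_eq_mul, RingHom.id_apply, Finset.mul_sum, mul_assoc]

/-- the pairing -/
def pr (B : Finset (Q n)) : (B → ZMod 2) →ₗ[ZMod 2] Module.Dual (ZMod 2) (B → ZMod 2) where
  toFun g :=
    { toFun := fun h => ∑ y : B, g y * h y
      map_add' := fun h h' => by simp only [Pi.add_apply, mul_add, Finset.sum_add_distrib]
      map_smul' := fun c h => by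
        simp only [Pi.smul_apply, smul_eq_mul, RingHom.id_apply, Finset.mul_sum]
        refine Finset.sum_congr rfl fun y _ => by ring }
  map_add' g g' := by
    ext h
    simp [add_mul, Finset.sum_add_distrib]
  map_smul' c g := by
    ext h
    simp [Finset.mul_sum, mul_assoc]

lemma pr_apply (B : Finset (Q n)) (g h : B → ZMod 2) : pr B g h = ∑ y : B, g y * h y := rfl

lemma pr_inj (B : Finset (Q n)) : Function.Injective (pr B) := by
  classical
  intro g g' h
  funext y
  have := congrArg (fun φ => φ (Pi.single y 1)) h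
  simp only [pr_apply] at this
  simpa [Pi.single_apply] using this

/-- two functions on a large set, orthogonal to small degree and not orthogonal to each other -/
lemma isotropy {t : ℕ} (B : Finset (Q n)) (hB : 2 * (sm n t).card < B.card) :
    ∃ g h : Q n → ZMod 2, (∀ y, y ∉ B → g y = 0) ∧ (∀ y, y ∉ B → h y = 0) ∧ Ort t g ∧ Ort t h ∧
      ∑ y, g y * h y = 1 := by
  classical
  by_contra hcon
  set U := LinearMap.ker (mom B t) with hU
  have hort : ∀ g ∈ U, Ort t (ext B g) := by
    intro g hg T hT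
    rw [sum_ext]
    have := congrFun (LinearMap.mem_ker.1 hg) ⟨T, mem_sm.2 hT⟩
    exact this
  have hiso : ∀ g ∈ U, ∀ h ∈ U, pr B g h = 0 := by
    intro g hg h hh
    rcases zm2 (pr B g h) with h0 | h1
    · exact h0
    · exfalso
      refine hcon ⟨ext B g, ext B h, fun y hy => ext_not g hy, fun y hy => ext_not h hy,
        hort g hg, hort h hh, ?_⟩
      rw [sum_ext, ← h1, pr_apply]
      refine Finset.sum_congr rfl fun y _ => ?_
      simp [ext]
  have h1 : (U.map (pr B)) ≤ U.dualAnnihilator := by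
    rintro φ ⟨g, hg, rfl⟩
    rw [Submodule.mem_dualAnnihilator]
    intro h hh
    exact hiso g hg h hh
  have h2 : Module.finrank (ZMod 2) (U.map (pr B)) = Module.finrank (ZMod 2) U :=
    (Submodule.equivMapOfInjective (pr B) (pr_inj B) U).finrank_eq.symm
  have h3 := Submodule.finrank_mono h1
  have h4 := Subspace.finrank_add_finrank_dualAnnihilator_eq U
  have h5 := LinearMap.finrank_range_add_finrank_ker (mom B t)
  have h6 : Module.finrank (ZMod 2) (LinearMap.range (mom B t)) ≤ (sm n t).card := by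
    refine (Submodule.finrank_le _).trans ?_
    rw [Module.finrank_fintype_fun_eq_card, Fintype.card_coe]
  have h7 : Module.finrank (ZMod 2) (B → ZMod 2) = B.card := by
    rw [Module.finrank_fintype_fun_eq_card, Fintype.card_coe]
  rw [h7] at h4 h5
  rw [h2] at h3
  rw [← hU] at h5
  omega

/-- a polynomial of small degree in `u` supported on the differences of a large set -/
lemma exf {t : ℕ} (B : Finset (Q n)) (hB : 2 * (sm n t).card < B.card) :
    ∃ c : Finset (Fin n) → ZMod 2,
      ∑ R ∈ sm n (n - 2 * t - 2), c R * mo R (0 : Q n) = 1 ∧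
      ∀ u : Q n, ∑ R ∈ sm n (n - 2 * t - 2), c R * mo R u ≠ 0 → ∃ x ∈ B, x + u ∈ B := by
  obtain ⟨g, h, hg, hh, og, oh, h1⟩ := isotropy B hB
  obtain ⟨c, hc⟩ := conv_deg og oh
  refine ⟨c, ?_, fun u hu => ?_⟩
  · rw [← hc 0]
    simpa using h1
  · rw [← hc u] at hu
    obtain ⟨x, -, hx⟩ := Finset.exists_ne_zero_of_sum_ne_zero hu
    refine ⟨x, ?_, ?_⟩
    · by_contra hxB
      exact hx (by rw [hg x hxB, zero_mul])
    · by_contra hxB
      exact hx (by rw [hh _ hxB, mul_zero])

/-- the rank bound -/
lemma rank_bound {D : ℕ} (A : Finset (Q n)) (c : Q n → Finset (Fin n) → ZMod 2)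
    (h0 : ∀ a ∈ A, ∑ R ∈ sm n D, c a R * mo R (0 : Q n) = 1)
    (h1 : ∀ a ∈ A, ∀ b ∈ A, a ≠ b → (∑ R ∈ sm n D, c a R * mo R (a + b)) *
      (∑ R ∈ sm n D, c b R * mo R (a + b)) = 0) : A.card ≤ (sm n D).card ^ 2 := by
  classical
  -- coefficients
  let C : Q n → Finset (Fin n) → ZMod 2 := fun a T =>
    ∑ R ∈ (sm n D).filter (fun R => T ⊆ R), c a R * mo (R \ T) a
  have hC : ∀ a b : Q n, ∑ R ∈ sm n D, c a R * mo R (a + b) = ∑ T ∈ sm n D, C a T * mo T b := by
    intro a b
    have e1 : ∀ R ∈ sm n D, c a R * mo R (a + b) =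
        ∑ T ∈ (sm n D).filter (fun T => T ⊆ R), c a R * mo (R \ T) a * mo T b := by
      intro R hR
      rw [add_comm a b, mo_add, Finset.mul_sum]
      have e2 : (sm n D).filter (fun T => T ⊆ R) = R.powerset := by
        ext T
        simp only [Finset.mem_filter, mem_sm, Finset.mem_powerset]
        constructor
        · exact fun h => h.2
        · exact fun h => ⟨(Finset.card_le_card h).trans (mem_sm.1 hR), h⟩
      rw [e2]
      refine Finset.sum_congr rfl fun T _ => by ring
    rw [Finset.sum_congr rfl e1]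
    have e3 : ∀ T ∈ sm n D, C a T * mo T b =
        ∑ R ∈ (sm n D).filter (fun R => T ⊆ R), c a R * mo (R \ T) a * mo T b := by
      intro T _
      rw [Finset.sum_mul]
    rw [Finset.sum_congr rfl e3]
    simp only [Finset.sum_filter]
    rw [Finset.sum_comm]
  let X : Matrix A (sm n D × sm n D) (ZMod 2) := fun a p =>
    C (a : Q n) (p.1 : Finset (Fin n)) * mo (p.2 : Finset (Fin n)) (a : Q n)
  let Y : Matrix (sm n D × sm n D) A (ZMod 2) := fun p b =>
    mo (p.1 : Finset (Fin n)) (b : Q n) * C (b : Q n) (p.2 : Finset (Fin n))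
  have hXY : X * Y = 1 := by
    ext a b
    rw [Matrix.mul_apply, Fintype.sum_prod_type]
    have e1 : ∑ T : sm n D, ∑ T' : sm n D, X a (T, T') * Y (T, T') b =
        (∑ R ∈ sm n D, c a R * mo R ((a : Q n) + b)) *
        (∑ R ∈ sm n D, c b R * mo R ((a : Q n) + b)) := by
      rw [hC (a : Q n) b]
      have e2 := hC (b : Q n) a
      rw [add_comm (b : Q n) (a : Q n)] at e2
      rw [e2, ← Finset.sum_coe_sort (sm n D), ← Finset.sum_coe_sort (sm n D), Finset.sum_mul_sum]
      refine Finset.sum_congr rfl fun T _ => Finset.sum_congr rfl fun T' _ => ?_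
      simp only [X, Y]
      ring
    rw [e1]
    by_cases hab : a = b
    · subst hab
      have hz : (a : Q n) + a = 0 := by
        funext i
        exact zm2_add _
      rw [hz, h0 a a.2, Matrix.one_apply_eq, one_mul]
    · rw [Matrix.one_apply_ne hab]
      exact h1 a a.2 b b.2 fun h => hab (Subtype.ext h)
  have h2 : (1 : Matrix A A (ZMod 2)).rank = A.card := by
    rw [Matrix.rank_one, Fintype.card_coe]
  rw [← hXY] at h2
  rw [← h2]
  refine (Matrix.rank_mul_le_left X Y).trans ((Matrix.rank_le_card_width X).trans ?_)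
  rw [Fintype.card_prod, Fintype.card_coe, sq]

end Pool.Agent.Helper7.Z4
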