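import Pool.Agent.Helper7.Z4.B

/-!
# Z4 / C: sets in `(Z/4)^n` without four-term progressions
-/

set_option autoImplicit false

namespace Pool.Agent.Helper7.Z4

open Finset

variable {n : ℕ}

/-- the element of `Z/4` with digits `a`, `b` -/
def io (a b : ZMod 2) : ZMod 4 := (a.val : ZMod 4) + 2 * (b.val : ZMod 4)

/-- first digit -/
def fs (z : ZMod 4) : ZMod 2 := (z.val : ZMod 2)

/-- second digit -/
def sn (z : ZMod 4) : ZMod 2 := ((z.val / 2 : ℕ) : ZMod 2)

lemma io_fs_sn : ∀ z : ZMod 4, io (fs z) (sn z) = z := by decide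

lemma io_two : ∀ a b a' b' : ZMod 2, 2 * io a' b' - io a b = io a (b + (a + a')) := by decide

lemma io_three : ∀ a b a' b' : ZMod 2, 3 * io a' b' - 2 * io a b = io a' (b' + (a + a')) := by
  decide

lemma io_dbl : ∀ a b a' b' : ZMod 2, 2 * (io a' b' - io a b) = 0 → a = a' := by decide

/-- the element of `(Z/4)^n` with digits `a`, `b` -/
def iv (a b : Q n) : Fin n → ZMod 4 := fun i => io (a i) (b i)

/-- the number of the subsets which are bounded by `sm` -/
def thr (n t : ℕ) : ℕ := 2 ^ n * ((sm n (n - 2 * t - 2)).card ^ 2 + 2 * (sm n t).card)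

lemma card_Q : Fintype.card (Q n) = 2 ^ n := by
  simp [Q, ZMod.card]

/-- a set without proper four-term progressions is small -/
lemma free_bound (t : ℕ) (A : Finset (Fin n → ZMod 4))
    (hA : ∀ x d : Fin n → ZMod 4, x ∈ A → x + d ∈ A → x + 2 • d ∈ A → x + 3 • d ∈ A → 2 • d = 0) :
    A.card ≤ thr n t := by
  classical
  let B : Q n → Finset (Q n) := fun a => univ.filter fun b => iv a b ∈ A
  have hB : ∀ a b, b ∈ B a ↔ iv a b ∈ A := fun a b => by simp [B]
  -- the size of `A`
  have h1 : A.card ≤ ∑ a : Q n, (B a).card := by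
    rw [Finset.card_eq_sum_card_fiberwise (f := fun x : Fin n → ZMod 4 => (fun i => fs (x i) : Q n))
      (t := univ) (fun x _ => by simp)]
    refine Finset.sum_le_sum fun a _ => ?_
    refine Finset.card_le_card_of_injOn (fun x : Fin n → ZMod 4 => (fun i => sn (x i) : Q n)) ?_ ?_
    · intro x hx
      rw [Finset.mem_coe, Finset.mem_filter] at hx
      rw [Finset.mem_coe, hB]
      have : iv a (fun i => sn (x i)) = x := by
        funext i
        rw [← hx.2]
        exact io_fs_sn (x i)
      rw [this]
      exact hx.1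
    · intro x hx y hy hxy
      rw [Finset.mem_coe, Finset.mem_filter] at hx hy
      funext i
      rw [← io_fs_sn (x i), ← io_fs_sn (y i)]
      have e1 := congrFun hxy i
      have e2 := congrFun (hx.2.trans hy.2.symm) i
      simp only at e1 e2
      rw [e1, e2]
  let U : Finset (Q n) := univ.filter fun a => 2 * (sm n t).card < (B a).card
  have hU : ∀ a, a ∈ U ↔ 2 * (sm n t).card < (B a).card := fun a => by simp [U]
  have h2 : U.card ≤ (sm n (n - 2 * t - 2)).card ^ 2 := by
    choose c hc0 hc1 using fun a : U => exf (B a) ((hU a).1 a.2)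
    refine rank_bound U (fun a => if ha : a ∈ U then c ⟨a, ha⟩ else 0) ?_ ?_
    · intro a ha
      simp only [ha, dif_pos]
      exact hc0 ⟨a, ha⟩
    · intro a ha b hb hab
      simp only [ha, hb, dif_pos]
      by_contra hne
      obtain ⟨x, hx, hx'⟩ := hc1 ⟨a, ha⟩ (a + b) (left_ne_zero_of_mul hne)
      obtain ⟨y, hy, hy'⟩ := hc1 ⟨b, hb⟩ (a + b) (right_ne_zero_of_mul hne)
      simp only [hB] at hx hx' hy hy'
      have e1 : iv a x + (iv b y - iv a x) = iv b y := by abel
      have e2 : iv a x + 2 • (iv b y - iv a x) = iv a (x + (a + b)) := by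
        funext i
        have := io_two (a i) (x i) (b i) (y i)
        change io (a i) (x i) + 2 • (io (b i) (y i) - io (a i) (x i)) =
          io (a i) (x i + (a i + b i))
        rw [← this, nsmul_eq_mul]
        push_cast
        ring
      have e3 : iv a x + 3 • (iv b y - iv a x) = iv b (y + (a + b)) := by
        funext i
        have := io_three (a i) (x i) (b i) (y i)
        change io (a i) (x i) + 3 • (io (b i) (y i) - io (a i) (x i)) =
          io (b i) (y i + (a i + b i))
        rw [← this, nsmul_eq_mul]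
        push_cast
        ring
      have e4 := hA (iv a x) (iv b y - iv a x) hx (by rw [e1]; exact hy) (by rw [e2]; exact hx')
        (by rw [e3]; exact hy')
      refine hab (funext fun i => ?_)
      have e5 : 2 • (io (b i) (y i) - io (a i) (x i)) = 0 := congrFun e4 i
      rw [nsmul_eq_mul] at e5
      exact (io_dbl (b i) (y i) (a i) (x i) (by
        have e6 : (2 : ZMod 4) * (io (a i) (x i) - io (b i) (y i)) =
          -(((2 : ℕ) : ZMod 4) * (io (b i) (y i) - io (a i) (x i))) := by push_cast; ring
        rw [e6, e5, neg_zero])).symm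
  have h3 : ∑ a : Q n, (B a).card ≤ 2 ^ n * U.card + 2 ^ n * (2 * (sm n t).card) := by
    rw [← Finset.sum_filter_add_sum_filter_not univ (fun a => 2 * (sm n t).card < (B a).card)]
    refine Nat.add_le_add ?_ ?_
    · calc ∑ a ∈ univ.filter (fun a => 2 * (sm n t).card < (B a).card), (B a).card
          ≤ ∑ _a ∈ univ.filter (fun a => 2 * (sm n t).card < (B a).card), 2 ^ n := by
            refine Finset.sum_le_sum fun a _ => ?_
            rw [← card_Q (n := n)]
            exact Finset.card_le_univ _
        _ = 2 ^ n * U.card := by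
            rw [Finset.sum_const, smul_eq_mul, mul_comm]
    · calc ∑ a ∈ univ.filter (fun a => ¬ 2 * (sm n t).card < (B a).card), (B a).card
          ≤ ∑ _a ∈ univ.filter (fun a => ¬ 2 * (sm n t).card < (B a).card),
              2 * (sm n t).card := by
            refine Finset.sum_le_sum fun a ha => ?_
            exact not_lt.1 (Finset.mem_filter.1 ha).2
        _ ≤ 2 ^ n * (2 * (sm n t).card) := by
            rw [Finset.sum_const, smul_eq_mul]
            refine Nat.mul_le_mul_right _ ?_
            rw [← card_Q (n := n)]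
            exact Finset.card_le_univ _
  calc A.card ≤ 2 ^ n * U.card + 2 ^ n * (2 * (sm n t).card) := h1.trans h3
    _ ≤ 2 ^ n * (sm n (n - 2 * t - 2)).card ^ 2 + 2 ^ n * (2 * (sm n t).card) := by
        exact Nat.add_le_add_right (Nat.mul_le_mul_left _ h2) _
    _ = thr n t := by
        unfold thr
        ring

/-- the proper progressions of `A` -/
noncomputable def prop4 (A : Finset (Fin n → ZMod 4)) :
    Finset ((Fin n → ZMod 4) × (Fin n → ZMod 4)) := by
  classical
  exact univ.filter fun p => p.1 ∈ A ∧ p.1 + p.2 ∈ A ∧ p.1 + 2 • p.2 ∈ A ∧ p.1 + 3 • p.2 ∈ A ∧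
    2 • p.2 ≠ 0

lemma mem_prop4 {A : Finset (Fin n → ZMod 4)} {p : (Fin n → ZMod 4) × (Fin n → ZMod 4)} :
    p ∈ prop4 A ↔ p.1 ∈ A ∧ p.1 + p.2 ∈ A ∧ p.1 + 2 • p.2 ∈ A ∧ p.1 + 3 • p.2 ∈ A ∧
      2 • p.2 ≠ 0 := by
  classical
  simp [prop4]

/-- the number of the proper progressions -/
lemma count_bound (t : ℕ) (A : Finset (Fin n → ZMod 4)) :
    A.card ≤ thr n t + (prop4 A).card := by
  classical
  have h1 : (A \ (prop4 A).image Prod.fst).card ≤ thr n t := by
    refine free_bound t _ fun x d h0 h1 h2 h3 => ?_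
    by_contra hd
    rw [Finset.mem_sdiff] at h0 h1 h2 h3
    refine h0.2 (Finset.mem_image.2 ⟨(x, d), ?_, rfl⟩)
    rw [mem_prop4]
    exact ⟨h0.1, h1.1, h2.1, h3.1, hd⟩
  have h2 : A.card ≤ (A \ (prop4 A).image Prod.fst).card + ((prop4 A).image Prod.fst).card := by
    exact Finset.card_le_card_sdiff_add_card
  have h3 : ((prop4 A).image Prod.fst).card ≤ (prop4 A).card := Finset.card_image_le
  omega

end Pool.Agent.Helper7.Z4
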