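import Pool.Agent.Helper7.Z4.C

/-!
# Z4 / E: numerical bounds
-/

set_option autoImplicit false

namespace Pool.Agent.Helper7.Z4

open Finset

/-- the sum of binomial coefficients -/
lemma sm_card_le (n m : ℕ) {y : ℝ} (hy : 0 < y) (hy1 : y ≤ 1) :
    ((sm n m).card : ℝ) * y ^ m ≤ (1 + y) ^ n := by
  have h1 := Fintype.sum_pow_mul_eq_add_pow (Fin n) y (1 : ℝ)
  rw [Fintype.card_fin] at h1
  rw [add_comm, ← h1]
  calc ((sm n m).card : ℝ) * y ^ m = ∑ _S ∈ sm n m, y ^ m := by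
        rw [Finset.sum_const, nsmul_eq_mul]
    _ ≤ ∑ S ∈ sm n m, y ^ S.card * 1 ^ (n - S.card) := by
        refine Finset.sum_le_sum fun S hS => ?_
        rw [one_pow, mul_one]
        exact pow_le_pow_of_le_one hy.le hy1 (mem_sm.1 hS)
    _ ≤ ∑ S : Finset (Fin n), y ^ S.card * 1 ^ (n - S.card) := by
        refine Finset.sum_le_sum_of_subset_of_nonneg (Finset.subset_univ _) fun S _ _ => ?_
        positivity

/-- the base -/
noncomputable def th : ℝ := 99427 / 100000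

lemma sm_bound (n m : ℕ) {y : ℝ} (hy : 0 < y) (hy1 : y ≤ 1) {q p r : ℕ} (hq : 0 < q)
    (hm : q * m ≤ p * n) {c : ℝ} (hc : 0 ≤ c) (h : (1 / y) ^ p * (1 + y) ^ q ≤ c ^ (q * r)) :
    ((sm n m).card : ℝ) ≤ (c ^ r) ^ n := by
  have h1 := sm_card_le n m hy hy1
  have h2 : ((sm n m).card : ℝ) ≤ (1 / y) ^ m * (1 + y) ^ n := by
    rw [one_div, inv_pow, ← div_eq_inv_mul, le_div_iff₀ (by positivity)]
    exact h1
  have h3 : 1 ≤ 1 / y := by
    rw [le_div_iff₀ hy]
    linarith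
  have h4 : ((sm n m).card : ℝ) ^ q ≤ ((c ^ r) ^ n) ^ q := by
    calc ((sm n m).card : ℝ) ^ q ≤ ((1 / y) ^ m * (1 + y) ^ n) ^ q :=
          pow_le_pow_left₀ (Nat.cast_nonneg _) h2 q
      _ = (1 / y) ^ (q * m) * (1 + y) ^ (q * n) := by
          rw [mul_pow, ← pow_mul, ← pow_mul, mul_comm m, mul_comm n]
      _ ≤ (1 / y) ^ (p * n) * (1 + y) ^ (q * n) := by
          refine mul_le_mul_of_nonneg_right (pow_le_pow_right₀ h3 hm) (by positivity)
      _ = ((1 / y) ^ p * (1 + y) ^ q) ^ n := by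
          rw [mul_pow, ← pow_mul, ← pow_mul]
      _ ≤ (c ^ (q * r)) ^ n := pow_le_pow_left₀ (by positivity) h n
      _ = ((c ^ r) ^ n) ^ q := by
          rw [← pow_mul, ← pow_mul, ← pow_mul]
          congr 1
          ring
  exact le_of_pow_le_pow_left₀ hq.ne' (by positivity) h4

/-- the choice of the degree -/
def tt (n : ℕ) : ℕ := 25 * n / 56

lemma thr_le (n : ℕ) : (thr n (tt n) : ℝ) ≤ 3 * (4 * th) ^ n := by
  have h1 : ((sm n (tt n)).card : ℝ) ≤ (2 * th) ^ n := by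
    have := sm_bound n (tt n) (y := 25 / 31) (by norm_num) (by norm_num) (q := 56) (p := 25)
      (r := 1) (by norm_num) (by unfold tt; omega) (c := 2 * th) (by unfold th; norm_num)
      (by unfold th; norm_num)
    rwa [pow_one] at this
  have h2 : ((sm n (n - 2 * tt n - 2)).card : ℝ) ^ 2 ≤ (2 * th) ^ n := by
    have h3 : ((sm n (n - 2 * tt n - 2)).card : ℝ) ≤ (((2 * th) ^ (1 / 2 : ℝ)) ^ 1) ^ n := by
      refine sm_bound n (n - 2 * tt n - 2) (y := 3 / 25) (by norm_num) (by norm_num) (q := 28)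
        (p := 3) (r := 1) (by norm_num) (by unfold tt; omega) (c := (2 * th) ^ (1 / 2 : ℝ))
        (by unfold th; positivity) ?_
      have h4 : ((2 * th) ^ (1 / 2 : ℝ)) ^ (28 * 1) = (2 * th) ^ 14 := by
        rw [← Real.rpow_natCast, ← Real.rpow_mul (by unfold th; norm_num), ← Real.rpow_natCast]
        norm_num
      rw [h4]
      unfold th
      norm_num
    calc ((sm n (n - 2 * tt n - 2)).card : ℝ) ^ 2 ≤ ((((2 * th) ^ (1 / 2 : ℝ)) ^ 1) ^ n) ^ 2 :=
          pow_le_pow_left₀ (Nat.cast_nonneg _) h3 2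
      _ = (2 * th) ^ n := by
          have e : ((2 * th) ^ (1 / 2 : ℝ)) ^ 2 = 2 * th := by
            rw [← Real.rpow_natCast _ 2, ← Real.rpow_mul (by unfold th; norm_num)]
            norm_num
          rw [pow_one, ← pow_mul, mul_comm n 2, pow_mul, e]
  unfold thr
  push_cast
  have h5 : (4 * th) ^ n = 2 ^ n * (2 * th) ^ n := by
    rw [← mul_pow]
    congr 1
    ring
  rw [h5]
  have h6 : (0 : ℝ) < 2 ^ n := by positivity
  nlinarith

end Pool.Agent.Helper7.Z4
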