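import Pool.Agent.Helper7.Z4.E

/-!
# Z4 / F: counting in groups of exponent 4
-/

set_option autoImplicit false

namespace Pool.Agent.Helper7.Z4

open Finset

/-- preimages under a surjective homomorphism -/
lemma card_preimage {H K : Type*} [AddCommGroup H] [Fintype H] [AddCommGroup K] [Fintype K]
    [DecidableEq K] (φ : H →+ K) (hφ : Function.Surjective φ) (P : Finset K) :
    (univ.filter fun h => φ h ∈ P).card * Fintype.card K = Fintype.card H * P.card := by
  classical
  have hf : ∀ k : K, (univ.filter fun h => φ h = k).card = (univ.filter fun h => φ h = 0).card := by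
    intro k
    obtain ⟨h0, hh0⟩ := hφ k
    refine Finset.card_bij (fun h _ => h - h0) ?_ ?_ ?_
    · intro h hh
      simp only [Finset.mem_filter, Finset.mem_univ, true_and] at hh ⊢
      rw [map_sub, hh, hh0, sub_self]
    · intro a _ b _ hab
      exact sub_left_injective hab
    · intro b hb
      simp only [Finset.mem_filter, Finset.mem_univ, true_and] at hb
      refine ⟨b + h0, ?_, by simp⟩
      simp only [Finset.mem_filter, Finset.mem_univ, true_and]
      rw [map_add, hb, hh0, zero_add]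
  have h1 : Fintype.card H = Fintype.card K * (univ.filter fun h => φ h = 0).card := by
    rw [← Finset.card_univ (α := H), Finset.card_eq_sum_card_fiberwise (f := φ) (t := univ)
      (fun x _ => by simp)]
    rw [Finset.sum_congr rfl fun k _ => hf k, Finset.sum_const, Finset.card_univ, smul_eq_mul]
  have h2 : (univ.filter fun h => φ h ∈ P).card =
      P.card * (univ.filter fun h => φ h = 0).card := by
    rw [Finset.card_eq_sum_card_fiberwise (f := φ) (t := P)
      (fun x hx => by simpa using hx)]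
    rw [← smul_eq_mul, ← Finset.sum_const]
    refine Finset.sum_congr rfl fun k hk => ?_
    rw [← hf k, Finset.filter_filter]
    congr 1
    ext h
    simp only [Finset.mem_filter, Finset.mem_univ, true_and]
    constructor
    · exact fun h => h.2
    · rintro rfl
      exact ⟨hk, rfl⟩
  rw [h1, h2]
  ring

section Group

variable {G : Type*} [AddCommGroup G] [Fintype G] [DecidableEq G] [Module (ZMod 4) G]

/-- the progressions of `A` -/
def aps (A : Finset G) : Finset (G × G) :=
  univ.filter fun p => p.1 ∈ A ∧ p.1 + p.2 ∈ A ∧ p.1 + 2 • p.2 ∈ A ∧ p.1 + 3 • p.2 ∈ A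

/-- combination -/
def cmb {m : ℕ} (w : Fin m → ZMod 4) (h : Fin m → G) : G := ∑ i, w i • h i

omit [Fintype G] [DecidableEq G] in
lemma cmb_add {m : ℕ} (w w' : Fin m → ZMod 4) (h : Fin m → G) :
    cmb (w + w') h = cmb w h + cmb w' h := by
  simp [cmb, add_smul, Finset.sum_add_distrib]

omit [Fintype G] [DecidableEq G] in
lemma cmb_nsmul {m : ℕ} (j : ℕ) (w : Fin m → ZMod 4) (h : Fin m → G) :
    cmb (j • w) h = j • cmb w h := by
  unfold cmb
  rw [Finset.smul_sum]
  refine Finset.sum_congr rfl fun i _ => ?_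
  rw [Pi.smul_apply, smul_assoc]

/-- the homomorphism attached to `w`, `δ` -/
def phi {m : ℕ} (w δ : Fin m → ZMod 4) : G × (Fin m → G) →+ G × G where
  toFun p := (p.1 + cmb w p.2, cmb δ p.2)
  map_zero' := by simp [cmb]
  map_add' p q := by
    simp only [cmb, Prod.fst_add, Prod.snd_add, Pi.add_apply, smul_add, Finset.sum_add_distrib,
      Prod.mk_add_mk]
    congr 1
    abel

omit [Fintype G] [DecidableEq G] in
lemma phi_surj {m : ℕ} (w δ : Fin m → ZMod 4) (hδ : 2 • δ ≠ 0) :
    Function.Surjective (phi (G := G) w δ) := by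
  classical
  obtain ⟨i, hi⟩ := Function.ne_iff.1 hδ
  have hu : δ i * δ i = 1 := by
    have h0 : 2 • δ i ≠ 0 := hi
    rw [nsmul_eq_mul] at h0
    revert h0
    generalize δ i = z
    revert z
    decide
  rintro ⟨X, E⟩
  refine ⟨(X - cmb w (Pi.single i (δ i • E)), Pi.single i (δ i • E)), ?_⟩
  have h1 : cmb δ (Pi.single i (δ i • E)) = E := by
    unfold cmb
    rw [Finset.sum_eq_single i]
    · rw [Pi.single_eq_same, smul_smul, hu, one_smul]
    · intro j _ hj
      rw [Pi.single_eq_of_ne hj, smul_zero]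
    · simp
  change (X - cmb w (Pi.single i (δ i • E)) + cmb w (Pi.single i (δ i • E)),
    cmb δ (Pi.single i (δ i • E))) = (X, E)
  rw [sub_add_cancel, h1]

/-- the pulled back set -/
def pull {m : ℕ} (A : Finset G) (p : G × (Fin m → G)) : Finset (Fin m → ZMod 4) :=
  univ.filter fun w => p.1 + cmb w p.2 ∈ A

lemma sum_pull (m : ℕ) (A : Finset G) :
    ∑ p : G × (Fin m → G), (pull A p).card = 4 ^ m * Fintype.card G ^ m * A.card := by
  have h1 : ∀ p : G × (Fin m → G), (pull A p).card =
      ∑ w : Fin m → ZMod 4, if p.1 + cmb w p.2 ∈ A then 1 else 0 := by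
    intro p
    rw [pull, Finset.card_filter]
  simp only [h1]
  rw [Finset.sum_comm]
  have h2 : ∀ w : Fin m → ZMod 4, ∑ p : G × (Fin m → G),
      (if p.1 + cmb w p.2 ∈ A then 1 else 0) = Fintype.card G ^ m * A.card := by
    intro w
    rw [Fintype.sum_prod_type_right]
    have h3 : ∀ h : Fin m → G, ∑ x : G, (if x + cmb w h ∈ A then 1 else 0) = A.card := by
      intro h
      rw [← Finset.card_filter]
      refine Finset.card_bij (fun x _ => x + cmb w h) ?_ ?_ ?_
      · intro x hx
        simpa using hx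
      · intro a _ b _ hab
        exact add_left_injective _ hab
      · intro b hb
        exact ⟨b - cmb w h, by simpa using hb, by simp⟩
    rw [Finset.sum_congr rfl fun h _ => h3 h, Finset.sum_const, Finset.card_univ, smul_eq_mul]
    simp
  rw [Finset.sum_congr rfl fun w _ => h2 w, Finset.sum_const, Finset.card_univ, smul_eq_mul]
  simp [ZMod.card, mul_assoc]

lemma sum_prop (m : ℕ) (A : Finset G) :
    (∑ p : G × (Fin m → G), (prop4 (pull A p)).card) * Fintype.card G ^ 2 ≤
      16 ^ m * Fintype.card G ^ (m + 1) * (aps A).card := by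
  classical
  have h1 : ∀ p : G × (Fin m → G), (prop4 (pull A p)).card =
      ∑ q : (Fin m → ZMod 4) × (Fin m → ZMod 4),
        if 2 • q.2 ≠ 0 ∧ phi q.1 q.2 p ∈ aps A then 1 else 0 := by
    intro p
    rw [← Finset.card_filter]
    congr 1
    ext q
    rw [mem_prop4]
    simp only [pull, aps, Finset.mem_filter, Finset.mem_univ, true_and, cmb_add, cmb_nsmul]
    change _ ↔ 2 • q.2 ≠ 0 ∧ (p.1 + cmb q.1 p.2 ∈ A ∧ p.1 + cmb q.1 p.2 + cmb q.2 p.2 ∈ A ∧
      p.1 + cmb q.1 p.2 + 2 • cmb q.2 p.2 ∈ A ∧ p.1 + cmb q.1 p.2 + 3 • cmb q.2 p.2 ∈ A)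
    simp only [add_assoc]
    tauto
  simp only [h1]
  rw [Finset.sum_comm, Finset.sum_mul]
  have h2 : ∀ q : (Fin m → ZMod 4) × (Fin m → ZMod 4), (∑ p : G × (Fin m → G),
      if 2 • q.2 ≠ 0 ∧ phi q.1 q.2 p ∈ aps A then 1 else 0) * Fintype.card G ^ 2 ≤
      Fintype.card G ^ (m + 1) * (aps A).card := by
    intro q
    by_cases hq : 2 • q.2 = 0
    · simp [hq]
    · have h3 := card_preimage (phi (G := G) q.1 q.2) (phi_surj _ _ hq) (aps A)
      rw [Fintype.card_prod, Fintype.card_prod, Fintype.card_fun, Fintype.card_fin, ← sq,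
        ← pow_succ'] at h3
      rw [← h3, ← Finset.card_filter]
      refine Nat.mul_le_mul_right _ (Finset.card_le_card ?_)
      intro p hp
      rw [Finset.mem_filter] at hp ⊢
      exact ⟨hp.1, hp.2.2⟩
  refine (Finset.sum_le_sum fun q _ => h2 q).trans ?_
  rw [Finset.sum_const, Finset.card_univ, smul_eq_mul, Fintype.card_prod, Fintype.card_fun,
    ZMod.card, Fintype.card_fin, ← mul_pow, mul_assoc]
  norm_num

/-- the counting inequality -/
lemma main_count (m t : ℕ) (A : Finset G) :
    4 ^ m * (Fintype.card G * A.card) ≤ Fintype.card G ^ 2 * thr m t + 16 ^ m * (aps A).card := by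
  have h1 := sum_pull m A
  have h2 := sum_prop m A
  have h3 : ∑ p : G × (Fin m → G), (pull A p).card ≤
      ∑ p : G × (Fin m → G), (thr m t + (prop4 (pull A p)).card) :=
    Finset.sum_le_sum fun p _ => count_bound t (pull A p)
  rw [Finset.sum_add_distrib, Finset.sum_const, Finset.card_univ, smul_eq_mul, Fintype.card_prod,
    Fintype.card_fun, Fintype.card_fin, h1, ← pow_succ'] at h3
  have h4 := Nat.mul_le_mul_right (Fintype.card G ^ 2) h3
  rw [add_mul] at h4
  have h5 : 4 ^ m * Fintype.card G ^ m * A.card * Fintype.card G ^ 2 ≤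
      Fintype.card G ^ (m + 1) * thr m t * Fintype.card G ^ 2 +
        16 ^ m * Fintype.card G ^ (m + 1) * (aps A).card := h4.trans (Nat.add_le_add_left h2 _)
  have h6 : 0 < Fintype.card G ^ (m + 1) := pow_pos Fintype.card_pos _
  refine Nat.le_of_mul_le_mul_left ?_ h6
  calc Fintype.card G ^ (m + 1) * (4 ^ m * (Fintype.card G * A.card))
      = 4 ^ m * Fintype.card G ^ m * A.card * Fintype.card G ^ 2 := by ring
    _ ≤ _ := h5
    _ = _ := by ring

end Group

/-- the number of the four-term progressions in a group of exponent 4 -/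
theorem four (G : Type*) [AddCommGroup G] [Fintype G] [DecidableEq G] (h4 : ∀ g : G, 4 • g = 0)
    (A : Finset G) : ((A.card : ℝ) / (7 * Fintype.card G)) ^ 243 * (Fintype.card G : ℝ) ^ 2 ≤
      ((univ.filter fun p : G × G => p.1 ∈ A ∧ p.1 + p.2 ∈ A ∧ p.1 + 2 • p.2 ∈ A ∧
        p.1 + 3 • p.2 ∈ A).card : ℝ) := by
  let _ : Module (ZMod 4) G := AddCommGroup.zmodModule h4
  change _ ≤ ((aps A).card : ℝ)
  have hG : (0 : ℝ) < Fintype.card G := by exact_mod_cast Fintype.card_pos
  rcases A.eq_empty_or_nonempty with rfl | hne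
  · simp
  have hA : (0 : ℝ) < A.card := by exact_mod_cast hne.card_pos
  set α : ℝ := (A.card : ℝ) / Fintype.card G with hα
  have hα0 : 0 < α := by positivity
  have hα1 : α ≤ 1 := by
    rw [hα, div_le_one hG]
    exact_mod_cast Finset.card_le_univ A
  have hth0 : (0 : ℝ) < th := by unfold th; norm_num
  have hth1 : th < 1 := by unfold th; norm_num
  have hex : ∃ m : ℕ, th ^ m ≤ α / 6 := by
    obtain ⟨m, hm⟩ := exists_pow_lt_of_lt_one (show (0 : ℝ) < α / 6 by positivity) hth1
    exact ⟨m, hm.le⟩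
  classical
  set m := Nat.find hex with hm
  have hm1 : th ^ m ≤ α / 6 := Nat.find_spec hex
  have hm0 : m ≠ 0 := by
    intro h0
    rw [h0, pow_zero] at hm1
    linarith
  obtain ⟨k, hk⟩ := Nat.exists_eq_succ_of_ne_zero hm0
  have hk1 : α / 6 < th ^ k := by
    have := Nat.find_min hex (m := k) (by omega)
    exact not_le.1 this
  have h1 : (4 : ℝ) ^ m * (Fintype.card G * A.card) ≤
      (Fintype.card G : ℝ) ^ 2 * thr m (tt m) + 16 ^ m * (aps A).card := by
    exact_mod_cast main_count m (tt m) A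
  have h2 := thr_le m
  have h3 : (Fintype.card G : ℝ) * A.card = (Fintype.card G : ℝ) ^ 2 * α := by
    rw [hα]
    field_simp
  have h4' : (3 : ℝ) * (4 * th) ^ m ≤ 4 ^ m * (α / 2) := by
    rw [mul_pow]
    have : (0 : ℝ) < 4 ^ m := by positivity
    nlinarith
  have h5 : (4 : ℝ) ^ m * ((Fintype.card G : ℝ) ^ 2 * (α / 2)) ≤ 16 ^ m * (aps A).card := by
    rw [h3] at h1
    have h6 : (Fintype.card G : ℝ) ^ 2 * thr m (tt m) ≤ (Fintype.card G : ℝ) ^ 2 *
        (4 ^ m * (α / 2)) := mul_le_mul_of_nonneg_left (h2.trans h4') (by positivity)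
    nlinarith
  have h16 : (16 : ℝ) ^ m = 4 ^ m * 4 ^ m := by
    rw [← mul_pow]
    norm_num
  have h6 : (Fintype.card G : ℝ) ^ 2 * (α / 2) ≤ 4 ^ m * (aps A).card := by
    rw [h16, mul_assoc] at h5
    exact le_of_mul_le_mul_left h5 (by positivity)
  have h7 : (α / 7) ^ 242 * 4 ^ m ≤ 1 := by
    have h8 : α / 7 ≤ th ^ m := by
      rw [hk, pow_succ]
      have : (6 : ℝ) / 7 ≤ th := by unfold th; norm_num
      nlinarith
    have h9 : (4 : ℝ) * th ^ 242 ≤ 1 := by unfold th; norm_num
    calc (α / 7) ^ 242 * 4 ^ m ≤ (th ^ m) ^ 242 * 4 ^ m := by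
          refine mul_le_mul_of_nonneg_right ?_ (by positivity)
          exact pow_le_pow_left₀ (by positivity) h8 242
      _ = (4 * th ^ 242) ^ m := by
          rw [mul_pow, ← pow_mul, ← pow_mul]
          ring
      _ ≤ 1 := pow_le_one₀ (by positivity) h9
  have h8 : (A.card : ℝ) / (7 * Fintype.card G) = α / 7 := by
    rw [hα]
    field_simp
  rw [h8]
  calc (α / 7) ^ 243 * (Fintype.card G : ℝ) ^ 2
      = (α / 7) ^ 242 * ((Fintype.card G : ℝ) ^ 2 * (α / 7)) := by ring
    _ ≤ (α / 7) ^ 242 * ((Fintype.card G : ℝ) ^ 2 * (α / 2)) := by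
        refine mul_le_mul_of_nonneg_left ?_ (by positivity)
        refine mul_le_mul_of_nonneg_left ?_ (by positivity)
        linarith
    _ ≤ (α / 7) ^ 242 * (4 ^ m * (aps A).card) :=
        mul_le_mul_of_nonneg_left h6 (by positivity)
    _ = ((α / 7) ^ 242 * 4 ^ m) * (aps A).card := by ring
    _ ≤ 1 * (aps A).card := mul_le_mul_of_nonneg_right h7 (Nat.cast_nonneg _)
    _ = (aps A).card := one_mul _

end Pool.Agent.Helper7.Z4
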